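import Mathlib

/-!
# MP_cd749c_co: a latin square of odd order in which a quarter of the entries need one entry

Order `n = 2 m - 1`. The lines have labels `0, 1, 1, 2, 2, ..., m - 1, m - 1`. A cell with labels
`i`, `j` has a symbol of the label `i + j`, `i + j - 1` or `i + j - m`.
-/

set_option autoImplicit false

namespace Pool.Agent.Helper75.OneEntry

open Finset

/-- the label of a line -/
def lab (r : ℕ) : ℕ := (r + 1) / 2

/-- the bit of a line -/
def bit (r : ℕ) : ℕ := (r + 1) % 2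

/-- the square -/
def sq (m r c : ℕ) : ℕ :=
  if r = 0 then c
  else if c = 0 then 2 * ((r + 1) / 2) - 1 + (1 + (r + 1) % 2 + (r + 1) / 2) % 2
  else if (r + 1) / 2 + (c + 1) / 2 ≤ m then
    (if (r + 1) % 2 = (c + 1) % 2 then
      2 * ((r + 1) / 2 + (c + 1) / 2 - 1) - 1 + ((r + 1) % 2 + (r + 1) / 2) % 2
    else if (r + 1) / 2 + (c + 1) / 2 = m then 0
    else 2 * ((r + 1) / 2 + (c + 1) / 2) - 1 + ((r + 1) % 2 + (r + 1) / 2 + 1) % 2)
  else 2 * ((r + 1) / 2 + (c + 1) / 2 - m) - 1 + ((r + 1) % 2 + (c + 1) % 2) % 2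

theorem sq_lt {m r c : ℕ} (hm : 1 ≤ m) (hr : r < 2 * m - 1) (hc : c < 2 * m - 1) :
    sq m r c < 2 * m - 1 := by
  unfold sq
  split_ifs <;> omega

theorem sq_row {m r c c' : ℕ} (hr : r < 2 * m - 1) (hc : c < 2 * m - 1) (hc' : c' < 2 * m - 1)
    (h : sq m r c = sq m r c') : c = c' := by
  unfold sq at h
  split_ifs at h <;> omega

theorem sq_col {m r r' c : ℕ} (hr : r < 2 * m - 1) (hr' : r' < 2 * m - 1)
    (h : sq m r c = sq m r' c) : r = r' := by
  unfold sq at h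
  split_ifs at h <;> omega

/-- cells of type 1 -/
def d1 (m r c : ℕ) : ℕ :=
  if r ≠ 0 ∧ c ≠ 0 ∧ (r + 1) / 2 + (c + 1) / 2 ≤ m ∧ (r + 1) % 2 = (c + 1) % 2 then 1 else 0

/-- cells which wrap around -/
def dw (m r c : ℕ) : ℕ :=
  if r ≠ 0 ∧ c ≠ 0 ∧ (m < (r + 1) / 2 + (c + 1) / 2 ∨
    ((r + 1) / 2 + (c + 1) / 2 = m ∧ (r + 1) % 2 ≠ (c + 1) % 2)) then 1 else 0

/-- the other cells -/
def d0 (m r c : ℕ) : ℕ := 1 - d1 m r c - dw m r c

theorem d_sum (m r c : ℕ) : d1 m r c + dw m r c + d0 m r c = 1 := by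
  have h : d1 m r c + dw m r c ≤ 1 := by
    unfold d1 dw
    split_ifs <;> omega
  unfold d0
  omega

theorem d0_row (m c : ℕ) : d0 m 0 c = 1 := by
  unfold d0 d1 dw
  simp

theorem d0_col (m r : ℕ) : d0 m r 0 = 1 := by
  unfold d0 d1 dw
  simp

theorem lab_sq (m r c : ℕ) :
    lab (sq m r c) + d1 m r c + m * dw m r c = lab r + lab c := by
  unfold lab sq d1 dw
  split_ifs <;> (try simp only [mul_one, mul_zero]) <;> omega

theorem sum_lab (m : ℕ) (hm : 1 ≤ m) : ∑ r ∈ range (2 * m - 1), lab r = m * (m - 1) := by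
  induction m, hm using Nat.le_induction with
  | base => rfl
  | succ m hm ih =>
    have e : 2 * (m + 1) - 1 = (2 * m - 1) + 1 + 1 := by omega
    rw [e, sum_range_succ, sum_range_succ, ih]
    have e1 : lab (2 * m - 1) = m := by
      unfold lab
      omega
    have e2 : lab (2 * m - 1 + 1) = m := by
      unfold lab
      omega
    rw [e1, e2]
    obtain ⟨k, rfl⟩ : ∃ k, m = k + 1 := ⟨m - 1, by omega⟩
    simp only [Nat.add_sub_cancel]
    ring

/-- the arithmetic of the two modes -/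
theorem arith {m A W Z : ℕ} (hm : 1 ≤ m) (h1 : A + m * W = m * (m - 1))
    (h2 : A + W + Z = 2 * m - 1) (hA : 1 ≤ A) (hZ : 2 ≤ Z) : False := by
  obtain ⟨M, rfl⟩ : ∃ M, m = M + 1 := ⟨m - 1, by omega⟩
  simp only [Nat.add_sub_cancel] at h1
  have hW : W < M := by
    by_contra hcon
    push Not at hcon
    have := Nat.mul_le_mul_left (M + 1) hcon
    omega
  obtain ⟨k, rfl⟩ : ∃ k, M = W + 1 + k := ⟨M - W - 1, by omega⟩
  have hA2 : A = (W + 1 + k + 1) * (k + 1) := by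
    have h3 : (W + 1 + k + 1) * (W + 1 + k) =
        (W + 1 + k + 1) * W + (W + 1 + k + 1) * (k + 1) := by ring
    rw [h3] at h1
    omega
  have h4 : (W + 1 + k + 1) * (k + 1) = W * k + k * k + W + 3 * k + 2 := by ring
  have h5 : 0 ≤ W * k + k * k := Nat.zero_le _
  omega

variable {m : ℕ}

/-- the latin square of order `2 m - 1` -/
def LS (m : ℕ) (hm : 1 ≤ m) (r c : Fin (2 * m - 1)) : Fin (2 * m - 1) :=
  ⟨sq m r.1 c.1, sq_lt hm r.2 c.2⟩

/-- Every transversal through a cell of type 1 contains the entry in the row `0` and the column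
`0`. -/
theorem need (hm : 1 ≤ m) (σ : Equiv.Perm (Fin (2 * m - 1)))
    (hσ : Function.Injective fun r => LS m hm r (σ r)) (r₀ : Fin (2 * m - 1))
    (h : d1 m r₀.1 (σ r₀).1 = 1) (o : Fin (2 * m - 1)) (ho : o.1 = 0) : σ o = o := by
  by_contra hne
  have hb : Function.Bijective fun r => LS m hm r (σ r) := Finite.injective_iff_bijective.1 hσ
  have hs : ∑ r : Fin (2 * m - 1), lab r.1 = m * (m - 1) := by
    rw [Fin.sum_univ_eq_sum_range (fun r => lab r), sum_lab m hm]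
  have hs1 : ∑ r : Fin (2 * m - 1), lab (σ r).1 = m * (m - 1) := by
    rw [← hs]
    exact Equiv.sum_comp σ (fun r : Fin (2 * m - 1) => lab r.1)
  have hs2 : ∑ r : Fin (2 * m - 1), lab (sq m r.1 (σ r).1) = m * (m - 1) := by
    rw [← hs]
    exact hb.sum_comp (fun r : Fin (2 * m - 1) => lab r.1)
  have h1 : ∑ r : Fin (2 * m - 1), (lab (sq m r.1 (σ r).1) + d1 m r.1 (σ r).1 +
      m * dw m r.1 (σ r).1) = ∑ r : Fin (2 * m - 1), (lab r.1 + lab (σ r).1) :=
    sum_congr rfl fun r _ => lab_sq m r.1 (σ r).1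
  rw [sum_add_distrib, sum_add_distrib, sum_add_distrib, hs, hs1, hs2, ← mul_sum] at h1
  have h2 : ∑ r : Fin (2 * m - 1), (d1 m r.1 (σ r).1 + dw m r.1 (σ r).1 + d0 m r.1 (σ r).1) =
      2 * m - 1 := by
    rw [sum_congr rfl fun r _ => d_sum m r.1 (σ r).1]
    simp
  rw [sum_add_distrib, sum_add_distrib] at h2
  refine arith hm (A := ∑ r : Fin (2 * m - 1), d1 m r.1 (σ r).1)
    (W := ∑ r : Fin (2 * m - 1), dw m r.1 (σ r).1)
    (Z := ∑ r : Fin (2 * m - 1), d0 m r.1 (σ r).1) (by omega) h2 ?_ ?_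
  · exact h.symm.le.trans (single_le_sum (f := fun r : Fin (2 * m - 1) => d1 m r.1 (σ r).1)
      (fun r _ => Nat.zero_le _) (mem_univ r₀))
  · have hne2 : o ≠ σ.symm o := by
      intro h3
      apply hne
      conv_lhs => rw [h3]
      exact σ.apply_symm_apply o
    have h3 : ∑ r ∈ ({o, σ.symm o} : Finset (Fin (2 * m - 1))), d0 m r.1 (σ r).1 = 2 := by
      rw [sum_pair hne2, ho, d0_row, σ.apply_symm_apply, ho, d0_col]
    exact h3.symm.le.trans (sum_le_sum_of_subset (subset_univ _))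

/-- enumeration of the cells of type 1 -/
def cell (a b m : ℕ) : ℕ × ℕ :=
  if a ≤ b then (2 * a + 1, 2 * (m - 1 - b) - 1) else (2 * b + 2, 2 * (m - a))

theorem cell_ok {a b : ℕ} (ha : a < m) (hb : b < m - 1) :
    (cell a b m).1 < 2 * m - 1 ∧ (cell a b m).2 < 2 * m - 1 ∧
      d1 m (cell a b m).1 (cell a b m).2 = 1 ∧ (cell a b m).1 ≠ 0 := by
  unfold cell d1
  by_cases h : a ≤ b
  · rw [if_pos h]
    refine ⟨?_, ?_, if_pos ?_, ?_⟩
    · show 2 * a + 1 < 2 * m - 1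
      omega
    · show 2 * (m - 1 - b) - 1 < 2 * m - 1
      omega
    · show 2 * a + 1 ≠ 0 ∧ 2 * (m - 1 - b) - 1 ≠ 0 ∧
        (2 * a + 1 + 1) / 2 + (2 * (m - 1 - b) - 1 + 1) / 2 ≤ m ∧
        (2 * a + 1 + 1) % 2 = (2 * (m - 1 - b) - 1 + 1) % 2
      omega
    · show 2 * a + 1 ≠ 0
      omega
  · rw [if_neg h]
    refine ⟨?_, ?_, if_pos ?_, ?_⟩
    · show 2 * b + 2 < 2 * m - 1
      omega
    · show 2 * (m - a) < 2 * m - 1
      omega
    · show 2 * b + 2 ≠ 0 ∧ 2 * (m - a) ≠ 0 ∧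
        (2 * b + 2 + 1) / 2 + (2 * (m - a) + 1) / 2 ≤ m ∧
        (2 * b + 2 + 1) % 2 = (2 * (m - a) + 1) % 2
      omega
    · show 2 * b + 2 ≠ 0
      omega

theorem cell_inj {a b a' b' : ℕ} (ha : a < m) (hb : b < m - 1) (ha' : a' < m) (hb' : b' < m - 1)
    (h : cell a b m = cell a' b' m) : a = a' ∧ b = b' := by
  unfold cell at h
  split_ifs at h <;> simp only [Prod.mk.injEq] at h <;> omega

/-- the entries different from `e` such that every transversal through them contains `e` -/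
def NeedCells {n : ℕ} (L : Fin n → Fin n → Fin n) (e : Fin n × Fin n) : Set (Fin n × Fin n) :=
  {p | p ≠ e ∧ ∀ σ : Equiv.Perm (Fin n), Function.Injective (fun i => L i (σ i)) →
    σ p.1 = p.2 → σ e.1 = e.2}

/-- odd orders -/
theorem odd_bound (m : ℕ) (hm : 1 ≤ m) :
    ∃ (L : Fin (2 * m - 1) → Fin (2 * m - 1) → Fin (2 * m - 1))
      (e : Fin (2 * m - 1) × Fin (2 * m - 1)),
      (∀ i, Function.Injective (L i)) ∧ (∀ j, Function.Injective (fun i => L i j)) ∧
      m * (m - 1) ≤ (NeedCells L e).ncard := by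
  have h0 : 0 < 2 * m - 1 := by omega
  refine ⟨LS m hm, (⟨0, h0⟩, ⟨0, h0⟩), ?_, ?_, ?_⟩
  · intro i a b h
    exact Fin.ext (sq_row i.2 a.2 b.2 (congrArg Fin.val h))
  · intro j a b h
    exact Fin.ext (sq_col a.2 b.2 (congrArg Fin.val h))
  · let f : Fin m × Fin (m - 1) → Fin (2 * m - 1) × Fin (2 * m - 1) := fun q =>
      (⟨(cell q.1.1 q.2.1 m).1, (cell_ok q.1.2 q.2.2).1⟩,
        ⟨(cell q.1.1 q.2.1 m).2, (cell_ok q.1.2 q.2.2).2.1⟩)
    have hf : Function.Injective f := by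
      intro q q' h
      have h1 : (cell q.1.1 q.2.1 m).1 = (cell q'.1.1 q'.2.1 m).1 :=
        congrArg (fun x => (Prod.fst x).1) h
      have h2 : (cell q.1.1 q.2.1 m).2 = (cell q'.1.1 q'.2.1 m).2 :=
        congrArg (fun x => (Prod.snd x).1) h
      have h3 := cell_inj q.1.2 q.2.2 q'.1.2 q'.2.2 (Prod.ext h1 h2)
      exact Prod.ext (Fin.ext h3.1) (Fin.ext h3.2)
    have hr : Set.range f ⊆ NeedCells (LS m hm) (⟨0, h0⟩, ⟨0, h0⟩) := by
      rintro _ ⟨q, rfl⟩
      have hok := cell_ok q.1.2 q.2.2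
      refine ⟨fun h => hok.2.2.2 (congrArg (fun x => (Prod.fst x).1) h), fun σ hσ h => ?_⟩
      refine need hm σ hσ (f q).1 ?_ ⟨0, h0⟩ rfl
      rw [h]
      exact hok.2.2.1
    have hc : (Set.range f).ncard = m * (m - 1) := by
      rw [← Set.image_univ, Set.ncard_image_of_injective _ hf, Set.ncard_univ]
      simp
    rw [← hc]
    exact Set.ncard_le_ncard hr (Set.toFinite _)

end Pool.Agent.Helper75.OneEntry
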